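import Pool.Agent.PLG.Stmts

/-!
# Squad PLG, row COV (helper74): covering
-/

set_option autoImplicit false

namespace Pool.Agent.PLG.H74

open Module Pool.Agent.PLG

theorem cov (pkv : PkvStmt) : CovStmt := by
  classical
  intro E _ _ f V r r' k hD hr hr' hk
  have hfd : FiniteDimensional ℚ (bs f V r) := FiniteDimensional.span_finset ℚ (bl f V r)
  obtain ⟨Sep, hSep⟩ : ∃ Sep : Finset ℂ → Prop, ∀ S, Sep S ↔
      ∀ x ∈ S, ∀ y ∈ S, x ≠ y → r' ≤ ‖f (x - y)‖ := ⟨_, fun _ => Iff.rfl⟩
  obtain ⟨S, hS, hmax⟩ := Finset.exists_max_image ((bl f V r).powerset.filter Sep)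
    (fun S => S.card) ⟨∅, by
      rw [Finset.mem_filter, hSep]
      exact ⟨Finset.mem_powerset.2 (Finset.empty_subset _), fun x hx => absurd hx (Finset.notMem_empty x)⟩⟩
  rw [Finset.mem_filter, Finset.mem_powerset, hSep] at hS
  obtain ⟨hsub, hsep⟩ := hS
  have hcov : ∀ x ∈ bl f V r, ∃ s ∈ S, ‖f (x - s)‖ ≤ r' := by
    intro x hx
    by_contra hcon
    push Not at hcon
    have hxS : x ∉ S := by
      intro h
      have := hcon x h
      rw [sub_self, map_zero, norm_zero] at this
      linarith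
    have h1 : insert x S ∈ (bl f V r).powerset.filter Sep := by
      rw [Finset.mem_filter, Finset.mem_powerset, hSep]
      refine ⟨Finset.insert_subset hx hsub, ?_⟩
      intro a ha b hb hab
      rcases Finset.mem_insert.1 ha with rfl | ha' <;> rcases Finset.mem_insert.1 hb with rfl | hb'
      · exact absurd rfl hab
      · exact (hcon b hb').le
      · have := (hcon a ha').le
        rw [← norm_neg, ← map_neg, neg_sub]
        exact this
      · exact hsep a ha' b hb' hab
    have h2 := hmax _ h1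
    rw [Finset.card_insert_of_notMem hxS] at h2
    omega
  have hcard : cnt f V r ≤ S.card * cnt f V r' := by
    have h1 : bl f V r ⊆ S.biUnion fun s => (bl f V r').image fun y => s + y := by
      intro x hx
      obtain ⟨s, hs, h2⟩ := hcov x hx
      rw [Finset.mem_biUnion]
      refine ⟨s, hs, Finset.mem_image.2 ⟨x - s, ?_, by ring⟩⟩
      rw [mem_bl hD]
      exact ⟨V.sub_mem ((mem_bl hD).1 hx).1 ((mem_bl hD).1 (hsub hs)).1, h2⟩
    calc cnt f V r ≤ (S.biUnion fun s => (bl f V r').image fun y => s + y).card :=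
          Finset.card_le_card h1
      _ ≤ ∑ s ∈ S, ((bl f V r').image fun y => s + y).card := Finset.card_biUnion_le
      _ ≤ ∑ _s ∈ S, cnt f V r' := Finset.sum_le_sum fun s _ => Finset.card_image_le
      _ = S.card * cnt f V r' := by rw [Finset.sum_const, smul_eq_mul]
  have hS' : (S.card : ℝ) ≤ (1 + 2 * r / r') ^ finrank ℚ (bs f V r) :=
    pkv E f (bs f V r) hfd S r' r hr' hr (fun x hx =>
      ⟨Submodule.subset_span (hsub hx), ((mem_bl hD).1 (hsub hx)).2⟩) hsep
  have h1 : (1 : ℝ) ≤ 1 + 2 * r / r' := by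
    have : 0 ≤ 2 * r / r' := by positivity
    linarith
  calc (cnt f V r : ℝ) ≤ ((S.card * cnt f V r' : ℕ) : ℝ) := by exact_mod_cast hcard
    _ = (S.card : ℝ) * cnt f V r' := by push_cast; ring
    _ ≤ (1 + 2 * r / r') ^ k * cnt f V r' := by
        refine mul_le_mul_of_nonneg_right (hS'.trans ?_) (Nat.cast_nonneg _)
        exact pow_le_pow_right₀ h1 hk

end Pool.Agent.PLG.H74
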